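import Mathlib
import Pool.Agent.Lib.helper6.Dist

set_option autoImplicit false

namespace Pool.Agent.Results.MP_0b3830_co.Counter

open Polynomial

/-- weighted distance matrix -/
noncomputable def wdist {V : Type} (G : SimpleGraph V) (w : Sym2 V → ℝ) : Matrix V V ℝ :=
  Matrix.of fun u v => sInf {x : ℝ | ∃ p : G.Walk u v, p.IsPath ∧ x = (p.edges.map w).sum}

/-- number of positive eigenvalues with multiplicity -/
noncomputable def posEig {V : Type} [Fintype V] [DecidableEq V] (M : Matrix V V ℝ) : ℕ :=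
  (M.charpoly.roots.filter (fun x => 0 < x)).card

/-- `H` is a minor of `G` -/
def IsMinor {W V : Type} (H : SimpleGraph W) (G : SimpleGraph V) : Prop :=
  ∃ B : W → Set V, (∀ a, (G.induce (B a)).Connected) ∧ (∀ a b, a ≠ b → Disjoint (B a) (B b)) ∧
    ∀ a b, H.Adj a b → ∃ x ∈ B a, ∃ y ∈ B b, G.Adj x y

def dm : Matrix (Fin 9) (Fin 9) ℕ := !![0, 2, 1, 1, 1, 2, 1, 1, 1; 2, 0, 1, 1, 1, 4, 3, 3, 3; 1, 1, 0, 2, 2, 3, 2, 2, 2; 1, 1, 2, 0, 2, 3, 2, 2, 2; 1, 1, 2, 2, 0, 3, 2, 2, 2; 2, 4, 3, 3, 3, 0, 1, 1, 1; 1, 3, 2, 2, 2, 1, 0, 2, 2; 1, 3, 2, 2, 2, 1, 2, 0, 2; 1, 3, 2, 2, 2, 1, 2, 2, 0]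

def G0 : SimpleGraph (Fin 9) where
  Adj x y := dm x y = 1
  symm := ⟨by intro x y; revert x y; decide⟩
  loopless := ⟨by decide⟩

instance : DecidableRel G0.Adj := fun x y => inferInstanceAs (Decidable (dm x y = 1))

theorem hd (u v : Fin 9) : G0.Reachable u v ∧ G0.dist u v = dm u v :=
  Pool.Agent.Lib.helper6.dist_eq_of_cert G0 dm (by decide +kernel) (by decide +kernel)
    (by decide +kernel) u v

theorem wd : wdist G0 (fun _ => 1) = dm.map (fun x => (x : ℝ)) := by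
  ext u v
  have e : ∀ p : G0.Walk u v, (p.edges.map (fun _ => (1 : ℝ))).sum = p.length := by
    intro p
    simp
  apply IsLeast.csInf_eq
  constructor
  · obtain ⟨p, hp, hl⟩ := (hd u v).1.exists_path_of_dist
    exact ⟨p, hp, by rw [e, hl, (hd u v).2]; rfl⟩
  · rintro x ⟨p, -, rfl⟩
    rw [e]
    have := SimpleGraph.dist_le p
    rw [(hd u v).2] at this
    show ((dm u v : ℕ) : ℝ) ≤ _
    exact_mod_cast this

theorem root_of (M : Matrix (Fin 9) (Fin 9) ℝ) (r : ℝ) (v : Fin 9 → ℝ) (hv : v ≠ 0)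
    (h : M.mulVec v = r • v) : r ∈ M.charpoly.roots := by
  rw [mem_roots M.charpoly_monic.ne_zero, IsRoot, Matrix.eval_charpoly,
    ← Matrix.exists_mulVec_eq_zero_iff]
  refine ⟨v, hv, ?_⟩
  rw [Matrix.sub_mulVec, h]
  ext i
  simp [Matrix.scalar, Matrix.mulVec_diagonal]

theorem cub (r : ℝ) (h0 : 0 < r) (h : r ^ 3 - 14 * r ^ 2 - 22 * r + 8 = 0) :
    r ∈ (dm.map (fun x => (x : ℝ))).charpoly.roots := by
  apply root_of _ r ![24 + 6 * r, 12 + 12 * r, r ^ 2 - 4 * r - 8, r ^ 2 - 4 * r - 8,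
    r ^ 2 - 4 * r - 8, 12 + 12 * r, r ^ 2 - 4 * r - 8, r ^ 2 - 4 * r - 8, r ^ 2 - 4 * r - 8]
  · intro h1
    have := congrFun h1 0
    simp at this
    linarith
  · ext i
    fin_cases i <;> simp [Matrix.mulVec, dotProduct, Fin.sum_univ_succ, dm] <;> linarith

theorem quad (r : ℝ) (h : r ^ 2 + 6 * r - 4 = 0) :
    r ∈ (dm.map (fun x => (x : ℝ))).charpoly.roots := by
  apply root_of _ r ![0, -6, r + 4, r + 4, r + 4, 6, -(r + 4), -(r + 4), -(r + 4)]
  · intro h1
    have := congrFun h1 1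
    simp at this
  · ext i
    fin_cases i <;> simp [Matrix.mulVec, dotProduct, Fin.sum_univ_succ, dm] <;> linarith

theorem three : 3 ≤ posEig (dm.map (fun x => (x : ℝ))) := by
  have c1 : Continuous (fun r : ℝ => r ^ 3 - 14 * r ^ 2 - 22 * r + 8) := by fun_prop
  have c2 : Continuous (fun r : ℝ => r ^ 2 + 6 * r - 4) := by fun_prop
  obtain ⟨a, ha, ha2⟩ := intermediate_value_Ioo' (show (0 : ℝ) ≤ 1 / 2 by norm_num)
    c1.continuousOn (show (0 : ℝ) ∈ Set.Ioo _ _ by constructor <;> norm_num)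
  obtain ⟨b, hb, hb2⟩ := intermediate_value_Ioo (show (1 / 2 : ℝ) ≤ 1 by norm_num)
    c2.continuousOn (show (0 : ℝ) ∈ Set.Ioo _ _ by constructor <;> norm_num)
  obtain ⟨c, hc, hc2⟩ := intermediate_value_Ioo (show (1 : ℝ) ≤ 20 by norm_num)
    c1.continuousOn (show (0 : ℝ) ∈ Set.Ioo _ _ by constructor <;> norm_num)
  have hab : a < b := ha.2.trans hb.1
  have hbc : b < c := hb.2.trans hc.1
  have hs : ({a, b, c} : Multiset ℝ) ≤
      (dm.map (fun x => (x : ℝ))).charpoly.roots.filter (fun x => 0 < x) := by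
    rw [Multiset.le_iff_subset]
    · intro x hx
      simp only [Multiset.insert_eq_cons, Multiset.mem_cons, Multiset.mem_singleton] at hx
      rw [Multiset.mem_filter]
      rcases hx with rfl | rfl | rfl
      · exact ⟨cub _ ha.1 ha2, ha.1⟩
      · exact ⟨quad _ hb2, ha.1.trans hab⟩
      · exact ⟨cub _ (ha.1.trans (hab.trans hbc)) hc2, ha.1.trans (hab.trans hbc)⟩
    · simp [hab.ne, hbc.ne, (hab.trans hbc).ne]
  simpa [posEig] using Multiset.card_le_card hs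

theorem result : ¬ ∀ n : ℕ, 1 ≤ n → ∀ (V : Type) [Fintype V] [DecidableEq V]
    (G : SimpleGraph V), G.Connected →
    ((∀ w : Sym2 V → ℝ, (∀ e ∈ G.edgeSet, 0 < w e) → posEig (wdist G w) ≤ n) ↔
      ¬ IsMinor (SimpleGraph.completeMultipartiteGraph
        (fun i : Fin (n + 1) => Fin (if i = 0 then 2 else 3))) G) := by
  intro h
  have hc : G0.Connected := ⟨fun u v => (hd u v).1⟩
  have h2 := (h 2 (by norm_num) (Fin 9) G0 hc).2 ?_ (fun _ => 1) (fun _ _ => one_pos)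
  · rw [wd] at h2
    have := three
    omega
  · rintro ⟨B, -, hB, hadj⟩
    choose x hx y hy hxy using hadj
    have key : ∀ a b z, z ∈ B a → z ∈ B b → a = b := by
      intro a b z h1 h2
      by_contra hne
      exact Set.disjoint_left.1 (hB a b hne) h1 h2
    let W := Σ i : Fin (2 + 1), Fin (if i = 0 then 2 else 3)
    let f : {p : W × W // p.1.1 ≠ p.2.1} → {q : Fin 9 × Fin 9 // G0.Adj q.1 q.2} :=
      fun p => ⟨(x p.1.1 p.1.2 p.2, y p.1.1 p.1.2 p.2), hxy _ _ p.2⟩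
    have hf : Function.Injective f := by
      intro p q hpq
      have e := congrArg Subtype.val hpq
      have e1 : x p.1.1 p.1.2 p.2 = x q.1.1 q.1.2 q.2 := congrArg Prod.fst e
      have e2 : y p.1.1 p.1.2 p.2 = y q.1.1 q.1.2 q.2 := congrArg Prod.snd e
      exact Subtype.ext (Prod.ext (key _ _ _ (hx _ _ p.2) (e1 ▸ hx _ _ q.2))
        (key _ _ _ (hy _ _ p.2) (e2 ▸ hy _ _ q.2)))
    have h3 := Fintype.card_le_of_injective f hf
    revert h3
    decide +kernel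

end Pool.Agent.Results.MP_0b3830_co.Counter
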